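import Pool.Agent.Helper38.Weiss.Api

/-!
# Many names (packet W-E2 of MP_6b0aee_an)
-/

open Set Filter Topology MeasureTheory Pool.Agent.Helper38.Weiss

namespace Pool.Agent.Helper51.Weiss

theorem sum_negMulLog_le {β : Type*} (r : β → ℝ) (hr : ∀ i, 0 ≤ r i) (N : Finset β) :
    ∑ i ∈ N, Real.negMulLog (r i) ≤
      (∑ i ∈ N, r i) * Real.log N.card + Real.negMulLog (∑ i ∈ N, r i) := by
  rcases N.eq_empty_or_nonempty with rfl | hN
  · simp
  have hc : (0 : ℝ) < N.card := by exact_mod_cast hN.card_pos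
  have hJ := Real.concaveOn_negMulLog.le_map_sum (t := N) (w := fun _ => (1 : ℝ) / N.card)
    (p := r) (fun i _ => by positivity) (by
      rw [Finset.sum_const, nsmul_eq_mul]; field_simp) (fun i _ => hr i)
  simp only [smul_eq_mul] at hJ
  rw [← Finset.mul_sum, ← Finset.mul_sum] at hJ
  set m := ∑ i ∈ N, r i with hm
  have hm0 : 0 ≤ m := Finset.sum_nonneg (fun i _ => hr i)
  have h1 : Real.negMulLog (1 / N.card * m) =
      1 / N.card * (m * Real.log N.card + Real.negMulLog m) := by
    rcases hm0.eq_or_lt with h0 | h0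
    · rw [← h0]; simp
    · unfold Real.negMulLog
      rw [Real.log_mul (by positivity) h0.ne', Real.log_div one_ne_zero hc.ne', Real.log_one]
      ring
  rw [h1] at hJ
  have h2 : (0 : ℝ) < 1 / N.card := by positivity
  exact le_of_mul_le_mul_left hJ h2

theorem ent_le {β : Type*} [Fintype β] (r : β → ℝ) (hr : ∀ i, 0 ≤ r i) (hr1 : ∑ i, r i = 1)
    (N : Finset β) :
    ent r ≤ Real.log 2 + (∑ i ∈ N, r i) * Real.log N.card +
      (1 - ∑ i ∈ N, r i) * Real.log (Fintype.card β) := by
  classical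
  have h1 := sum_negMulLog_le r hr N
  have h2 := sum_negMulLog_le r hr Nᶜ
  have h3 : ∑ i ∈ Nᶜ, r i = 1 - ∑ i ∈ N, r i := by
    rw [← hr1, ← Finset.sum_add_sum_compl N r]; ring
  have h4 : ent r = ∑ i ∈ N, Real.negMulLog (r i) + ∑ i ∈ Nᶜ, Real.negMulLog (r i) := by
    rw [Finset.sum_add_sum_compl]; rfl
  rw [h3] at h2
  set b := ∑ i ∈ N, r i with hb
  have h5 : Real.negMulLog b + Real.negMulLog (1 - b) ≤ Real.log 2 := by
    rw [← Real.binEntropy_eq_negMulLog_add_negMulLog_one_sub]
    exact Real.binEntropy_le_log_two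
  have h6 : 0 ≤ 1 - b := by rw [← h3]; exact Finset.sum_nonneg (fun i _ => hr i)
  have h7 : (1 - b) * Real.log (Nᶜ.card) ≤ (1 - b) * Real.log (Fintype.card β) := by
    refine mul_le_mul_of_nonneg_left ?_ h6
    rcases Nat.eq_zero_or_pos Nᶜ.card with h0 | h0
    · rw [h0]; simp only [Nat.cast_zero, Real.log_zero]
      exact Real.log_natCast_nonneg _
    · exact Real.log_le_log (by exact_mod_cast h0) (by exact_mod_cast Finset.card_le_univ _)
  rw [h4]
  linarith

/-- The word of the first `L` letters of the name. -/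
def nm {X : Type*} (F : X → X) {n : ℕ} (P : X → Fin n) (L : ℕ) (x : X) (s : Fin L) : Fin n :=
  P (F^[s] x)

theorem meas_nm {X : Type*} [MeasurableSpace X] {F : X → X} (hF : Measurable F) {n : ℕ}
    {P : X → Fin n} (hP : Measurable P) (L : ℕ) (w : Fin L → Fin n) :
    MeasurableSet (nm F P L ⁻¹' {w}) := by
  have : nm F P L ⁻¹' {w} = ⋂ s : Fin L, (fun x => P (F^[s] x)) ⁻¹' {w s} := by
    ext x
    simp only [mem_preimage, mem_singleton_iff, mem_iInter, funext_iff, nm]
  rw [this]
  exact MeasurableSet.iInter fun s => (hP.comp (hF.iterate s)) (MeasurableSet.singleton _)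

theorem law_eq {X : Type*} [MeasurableSpace X] (ν : Measure X) (F : X → X) {n : ℕ}
    (P : X → Fin n) (L : ℕ) (w : Fin L → Fin n) :
    law ν F P L w = (ν (nm F P L ⁻¹' {w})).toReal := by
  unfold law
  congr 2
  ext x
  simp only [mem_preimage, mem_singleton_iff, funext_iff, nm, mem_setOf_eq]

theorem sum_law {X : Type*} [MeasurableSpace X] (ν : Measure X) [IsProbabilityMeasure ν]
    {F : X → X} (hF : Measurable F) {n : ℕ} {P : X → Fin n} (hP : Measurable P) (L : ℕ)
    (N : Finset (Fin L → Fin n)) :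
    ∑ w ∈ N, law ν F P L w = (ν (nm F P L ⁻¹' ↑N)).toReal := by
  rw [← sum_measure_preimage_singleton N (fun w _ => meas_nm hF hP L w),
    ENNReal.toReal_sum (fun w _ => measure_ne_top ν _)]
  exact Finset.sum_congr rfl fun w _ => law_eq ν F P L w

theorem names_count {X : Type*} [MeasurableSpace X] (ν : Measure X) [IsProbabilityMeasure ν]
    (F : X → X) (hF : Measurable F) {n : ℕ} (P : X → Fin n) (hP : Measurable P)
    (B : ℕ → Set X) (hB : ∀ T, MeasurableSet (B T)) (hB1 : Tendsto (fun T => ν (B T)) atTop (𝓝 1))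
    (η : ℝ) (hη : 0 < η) :
    ∃ T₀ : ℕ, ∀ T ≥ T₀, Real.exp (T * (hInf ν F P - η)) ≤
      ((fun (x : X) (s : Fin T) => P (F^[s] x)) '' (B T)).ncard := by
  have _ := hB
  have hlim : Tendsto (fun T => (1 - (ν (B T)).toReal) * Real.log n) atTop (𝓝 0) := by
    have h1 : Tendsto (fun T => (ν (B T)).toReal) atTop (𝓝 1) := by
      have := (ENNReal.tendsto_toReal ENNReal.one_ne_top).comp hB1
      rw [ENNReal.toReal_one] at this
      exact this
    have h2 := (tendsto_const_nhds (x := (1 : ℝ))).sub h1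
    have h3 := h2.mul_const (Real.log n)
    simpa using h3
  have hpos : ∀ᶠ T in atTop, (1 - (ν (B T)).toReal) * Real.log n < η / 2 :=
    hlim.eventually_lt_const (by positivity)
  have hpos' : ∀ᶠ T in atTop, 0 < (ν (B T)) := hB1.eventually_const_lt (by norm_num)
  have hT : ∀ᶠ T : ℕ in atTop, Real.log 2 ≤ T * (η / 2) := by
    have : Tendsto (fun T : ℕ => (T : ℝ) * (η / 2)) atTop atTop :=
      tendsto_natCast_atTop_atTop.atTop_mul_const (by positivity)
    exact this.eventually_ge_atTop _
  obtain ⟨T₀, hT₀⟩ := Filter.eventually_atTop.1 (hpos.and (hpos'.and (hT.and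
    (Filter.eventually_ge_atTop 1))))
  refine ⟨T₀, fun T hTT => ?_⟩
  obtain ⟨h1, h2, h3, h4⟩ := hT₀ T hTT
  have hT1 : (0 : ℝ) < T := by exact_mod_cast h4
  -- the finite set of names
  have hfin : ((fun (x : X) (s : Fin T) => P (F^[s] x)) '' (B T)).Finite := Set.toFinite _
  set N := hfin.toFinset with hN
  have hNcard : ((fun (x : X) (s : Fin T) => P (F^[s] x)) '' (B T)).ncard = N.card :=
    Set.ncard_eq_toFinset_card _ hfin
  have hsub : B T ⊆ nm F P T ⁻¹' ↑N := by
    intro x hx
    simp only [mem_preimage, Finset.mem_coe, hN, Set.Finite.mem_toFinset]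
    exact ⟨x, hx, rfl⟩
  have hNpos : 0 < N.card := by
    have hne : (B T).Nonempty := by
      rw [Set.nonempty_iff_ne_empty]
      intro h0
      rw [h0, measure_empty] at h2
      exact lt_irrefl _ h2
    obtain ⟨x, hx⟩ := hne
    exact Finset.card_pos.2 ⟨_, by simpa using hsub hx⟩
  have hr : ∀ w, 0 ≤ law ν F P T w := fun w => ENNReal.toReal_nonneg
  have hr1 : ∑ w, law ν F P T w = 1 := by
    rw [sum_law ν hF hP T Finset.univ]
    simp
  have hent := ent_le (law ν F P T) hr hr1 N
  rw [sum_law ν hF hP T N] at hent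
  have hcard : Real.log (Fintype.card (Fin T → Fin n)) = T * Real.log n := by
    simp [Fintype.card_fun]
  rw [hcard] at hent
  set b := (ν (nm F P T ⁻¹' ↑N)).toReal with hb
  have hbB : (ν (B T)).toReal ≤ b := ENNReal.toReal_mono (measure_ne_top ν _) (measure_mono hsub)
  have hb1 : b ≤ 1 := by
    have := ENNReal.toReal_mono ENNReal.one_ne_top (prob_le_one (μ := ν) (s := nm F P T ⁻¹' ↑N))
    simpa using this
  have hlogn : 0 ≤ Real.log n := Real.log_natCast_nonneg n
  have hlogN : 0 ≤ Real.log N.card := Real.log_natCast_nonneg _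
  -- the infimum
  have hinf : hInf ν F P ≤ ent (law ν F P T) / T := by
    have hbdd : BddBelow (Set.range fun L : ℕ => ent (law ν F P (L + 1)) / ((L : ℝ) + 1)) := by
      refine ⟨0, ?_⟩
      rintro _ ⟨L, rfl⟩
      refine div_nonneg (Finset.sum_nonneg fun w _ => Real.negMulLog_nonneg ENNReal.toReal_nonneg ?_)
        (by positivity)
      have := ENNReal.toReal_mono ENNReal.one_ne_top
        (prob_le_one (μ := ν) (s := {x | ∀ s : Fin (L + 1), P (F^[s] x) = w s}))
      rw [ENNReal.toReal_one] at this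
      exact this
    have := ciInf_le hbdd (T - 1)
    have e : T - 1 + 1 = T := by omega
    have e2 : ((T - 1 : ℕ) : ℝ) + 1 = T := by
      rw [← Nat.cast_add_one, e]
    rw [e2] at this
    unfold hInf
    refine this.trans (le_of_eq ?_)
    rw [e]
  have hinf' : T * hInf ν F P ≤ ent (law ν F P T) := by
    rw [le_div_iff₀ hT1] at hinf
    linarith
  have h5 : b * Real.log N.card ≤ Real.log N.card := by nlinarith
  have h6 : (1 - b) * (T * Real.log n) ≤ T * (η / 2) := by
    have : (1 - b) * Real.log n ≤ η / 2 := by nlinarith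
    calc (1 - b) * (T * Real.log n) = T * ((1 - b) * Real.log n) := by ring
      _ ≤ T * (η / 2) := mul_le_mul_of_nonneg_left this hT1.le
  have h7 : T * (hInf ν F P - η) ≤ Real.log N.card := by
    have : T * (hInf ν F P - η) = T * hInf ν F P - T * (η / 2) - T * (η / 2) := by ring
    linarith
  rw [hNcard]
  calc Real.exp (T * (hInf ν F P - η)) ≤ Real.exp (Real.log N.card) := Real.exp_le_exp.2 h7
    _ = N.card := Real.exp_log (by exact_mod_cast hNpos)

end Pool.Agent.Helper51.Weiss
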