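import Pool.Agent.Helper49.Weiss.TypeClass
import Pool.Agent.Helper10.Weiss.U6
import Pool.Agent.Helper97.Weiss.Reduce

/-!
# Universal comparison of names (packet W-D of MP_6b0aee_an)
-/

open Set Filter Topology MeasureTheory Pool.Agent.Helper38.Weiss

namespace Pool.Agent.Helper51.Weiss

theorem card_uncovered {L T : ℕ} {A : Finset ℕ} (hA : Packing L T A) :
    ((Finset.range T) \ A.biUnion (fun a => Finset.Ico a (a + L))).card + L * A.card = T := by
  have h1 : (A.biUnion (fun a => Finset.Ico a (a + L))).card = L * A.card := by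
    rw [Finset.card_biUnion]
    · simp [mul_comm]
    · intro a ha b hb hab
      rw [Function.onFun, Finset.disjoint_left]
      intro x hx hx'
      rw [Finset.mem_Ico] at hx hx'
      rcases lt_or_gt_of_ne hab with h | h
      · have := hA.2 a ha b hb h; omega
      · have := hA.2 b hb a ha h; omega
  have h2 : A.biUnion (fun a => Finset.Ico a (a + L)) ⊆ Finset.range T := by
    intro x hx
    obtain ⟨a, ha, hx⟩ := Finset.mem_biUnion.1 hx
    rw [Finset.mem_Ico] at hx
    have := hA.1 a ha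
    rw [Finset.mem_range]; omega
  rw [Finset.card_sdiff_of_subset h2, h1, Finset.card_range]
  have h3 := Finset.card_le_card h2
  rw [h1, Finset.card_range] at h3
  omega

theorem sum_cnt {n L : ℕ} (A : Finset ℕ) (ξ : ℕ → Fin n) :
    ∑ w, cnt id L A ξ w = A.card := by
  classical
  unfold cnt
  rw [Finset.card_eq_sum_card_fiberwise (f := fun a => word id L ξ a) (t := Finset.univ)
    (fun _ _ => Finset.mem_univ _)]

theorem card_A_le {L T : ℕ} (hL : 0 < L) {A : Finset ℕ} (hA : Packing L T A) : A.card ≤ T := by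
  have := card_uncovered hA
  nlinarith

theorem cnt_eq {n L : ℕ} (A : Finset ℕ) (ξ : ℕ → Fin n) (b : Fin L → Fin n) :
    (Finset.univ.filter (fun i : A => word id L ξ i = b)).card = cnt id L A ξ b := by
  classical
  unfold cnt
  rw [← Finset.card_map (Function.Embedding.subtype _)]
  congr 1
  ext a
  simp only [Finset.mem_map, Finset.mem_filter, Finset.mem_univ, true_and,
    Function.Embedding.coe_subtype, Subtype.exists, exists_and_right, exists_eq_right]
  exact exists_prop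

/-- The combinatorial part: a bound for the constant. -/
theorem uc_comb (n L T : ℕ) (hL : 0 < L) (q : (Fin L → Fin n) → ℝ) (hq : ∀ w, 0 ≤ q w)
    (hq1 : ∑ w, q w = 1) (hn : 1 ≤ n) (Q δ b : ℝ) (hQ : ∀ w, -Real.log (q w) ≤ Q) (k : ℕ)
    (hk : δ * T + (δ * T + b) ≤ k) (S : Set (Fin n × Fin n)) (hS : ∀ i, (i, i) ∉ S)
    (A : Finset ℕ) (hA : Packing L T A) (W : Finset (ℕ → Fin n))
    (hW1 : ∀ ξ ∈ W, ∀ ζ ∈ W, (∀ t < T, ξ t = ζ t) → ξ = ζ)
    (hW2 : ∀ ξ ∈ W, Near id L q A ξ T (δ * T))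
    (hW3 : ∀ ξ ∈ W, ∀ a ∈ A, 0 < q (word id L ξ a)) (hW4 : 0 < W.card) :
    Leq (Typ id L q δ b T) (pw S T) (W : Set (ℕ → Fin n)) (pw S T)
      (((T + 1 : ℝ) ^ (n ^ L) * ((Finset.univ.filter (fun e : Fin T → Option (Fin n) =>
        (Finset.univ.filter (fun i => e i ≠ none)).card ≤ k)).card : ℝ)) *
        (Real.exp (T * (ent q / L) + δ * T * (Q / L)) *
          ((T + 1 : ℝ) ^ (n ^ L) * Real.exp (δ * T * Real.log n) / W.card))) := by
  classical
  have hLr : (0 : ℝ) < L := by exact_mod_cast hL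
  have hnr : (1 : ℝ) ≤ n := by exact_mod_cast hn
  -- pigeonhole over the types
  set typ : (ℕ → Fin n) → ((Fin L → Fin n) → Fin (T + 1)) := fun ξ w =>
    ⟨cnt id L A ξ w, Nat.lt_succ_of_le (le_trans (by
      unfold cnt; exact Finset.card_filter_le _ _) (card_A_le hL hA))⟩ with htyp
  have hpig : ∃ y : (Fin L → Fin n) → Fin (T + 1),
      W.card ≤ (T + 1) ^ (n ^ L) * (W.filter (fun ξ => typ ξ = y)).card := by
    by_contra hcon
    push Not at hcon
    have h1 : W.card = ∑ y : (Fin L → Fin n) → Fin (T + 1), (W.filter (fun ξ => typ ξ = y)).card :=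
      Finset.card_eq_sum_card_fiberwise (fun _ _ => Finset.mem_univ _)
    have h2 : (Finset.univ : Finset ((Fin L → Fin n) → Fin (T + 1))).card = (T + 1) ^ (n ^ L) := by
      simp
    have hne : (Finset.univ : Finset ((Fin L → Fin n) → Fin (T + 1))).Nonempty :=
      ⟨fun _ => 0, Finset.mem_univ _⟩
    have h3 : ∑ y : (Fin L → Fin n) → Fin (T + 1),
        (T + 1) ^ (n ^ L) * (W.filter (fun ξ => typ ξ = y)).card <
        ∑ _y : (Fin L → Fin n) → Fin (T + 1), W.card :=
      Finset.sum_lt_sum_of_nonempty hne fun y _ => hcon y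
    rw [← Finset.mul_sum, ← h1, Finset.sum_const, h2, smul_eq_mul] at h3
    exact lt_irrefl _ h3
  obtain ⟨y, hy⟩ := hpig
  set Wτ := W.filter (fun ξ => typ ξ = y) with hWτ
  have hWτpos : 0 < Wτ.card := by
    by_contra h0
    have : Wτ.card = 0 := by omega
    rw [this] at hy
    simp at hy
    rw [hy] at hW4
    simp at hW4
  set τ : (Fin L → Fin n) → ℕ := fun w => (y w : ℕ) with hτ
  have hcnt : ∀ ξ ∈ Wτ, ∀ w, cnt id L A ξ w = τ w := by
    intro ξ hξ w
    have := (Finset.mem_filter.1 hξ).2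
    rw [hτ, ← this]
  obtain ⟨ξ₀, hξ₀⟩ := Finset.card_pos.1 hWτpos
  have hξ₀W : ξ₀ ∈ W := (Finset.mem_filter.1 hξ₀).1
  have hd1 : ∑ w, |(L : ℝ) * τ w - q w * T| ≤ δ * T := by
    have := hW2 ξ₀ hξ₀W
    unfold Near at this
    simpa only [hcnt ξ₀ hξ₀] using this
  have hτsum : ∑ w, τ w = Fintype.card A := by
    rw [← Finset.sum_congr rfl (fun w _ => hcnt ξ₀ hξ₀ w), sum_cnt, Fintype.card_coe]
  have hτq : ∀ w, 0 < τ w → 0 < q w := by
    intro w hw
    rw [← hcnt ξ₀ hξ₀ w] at hw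
    obtain ⟨a, ha⟩ := Finset.card_pos.1 hw
    rw [Finset.mem_filter] at ha
    rw [← ha.2]
    exact hW3 ξ₀ hξ₀W a ha.1
  -- the word sequences
  set wd : (ℕ → Fin n) → (A → (Fin L → Fin n)) := fun ξ a => word id L ξ a with hwd
  set C := Wτ.image wd with hC
  have hCne : C.Nonempty := ⟨wd ξ₀, Finset.mem_image_of_mem _ hξ₀⟩
  have hCτ : ∀ w ∈ C, ∀ b, (Finset.univ.filter (fun i => w i = b)).card = τ b := by
    intro w hw b
    obtain ⟨ξ, hξ, rfl⟩ := Finset.mem_image.1 hw
    rw [← hcnt ξ hξ b, ← cnt_eq]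
  have hCcard : (0 : ℝ) < C.card := by exact_mod_cast hCne.card_pos
  -- the chain
  have step1 := Pool.Agent.Helper97.Weiss.leq_reduce n L T hL q hq1 S hS (ι := A) τ hτsum (δ * T) (δ * T + b) hd1 k hk
  have step2 := Pool.Agent.Helper49.Weiss.leq_typeClass (ι := A) (W := Fin L → Fin n)
    (fun w w' => ∃ s, (w s, w' s) ∈ S) τ C hCne hCτ
  have hrep : ∀ c ∈ C, ∃ ξ ∈ W, wd ξ = c := by
    intro c hc
    obtain ⟨ξ, hξ, h⟩ := Finset.mem_image.1 hc
    exact ⟨ξ, (Finset.mem_filter.1 hξ).1, h⟩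
  haveI : Nonempty (ℕ → Fin n) := ⟨ξ₀⟩
  choose! rep hrep1 hrep2 using hrep
  have hpwirr : ∀ z : ℕ → Fin n, ¬ pw S T z z := by
    rintro z ⟨t, _, ht⟩
    exact hS _ ht
  have step3 : Leq (C : Set (A → (Fin L → Fin n)))
      (fun w w' => ∃ i, ∃ s, (w i s, w' i s) ∈ S) (W : Set (ℕ → Fin n)) (pw S T) 1 := by
    refine Leq.of_map rep (fun c hc => hrep1 c hc) ?_ (fun z _ => hpwirr z)
    rintro c hc c' hc' ⟨i, s, his⟩
    refine ⟨i + s, ?_, ?_⟩
    · have := hA.1 i i.2
      have := s.2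
      omega
    · have e1 : rep c (i + s) = c i s := by rw [← congrFun (congrFun (hrep2 c hc) i) s]; rfl
      have e2 : rep c' (i + s) = c' i s := by rw [← congrFun (congrFun (hrep2 c' hc') i) s]; rfl
      rw [e1, e2]
      exact his
  have chain := (step1.trans (by positivity) step2).trans (by positivity) step3
  refine Leq.mono chain ?_
  -- the constants
  have hTC := Pool.Agent.Helper49.Weiss.card_typeClass_le (ι := A) (W := Fin L → Fin n) q hq
    hq1.le τ hτq
  set TC := ((Finset.univ.filter (fun w : A → (Fin L → Fin n) =>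
        ∀ b, (Finset.univ.filter (fun i => w i = b)).card = τ b)).card : ℝ) with hTCdef
  have hQ0 : 0 ≤ Q := by
    obtain ⟨w₀⟩ : Nonempty (Fin L → Fin n) := ⟨fun _ => ⟨0, hn⟩⟩
    have h1 : q w₀ ≤ 1 := by
      rw [← hq1]; exact Finset.single_le_sum (fun w _ => hq w) (Finset.mem_univ w₀)
    have := Real.log_nonpos (hq w₀) h1
    linarith [hQ w₀]
  have hsum : ∑ w, (τ w : ℝ) * -Real.log (q w) ≤ T * (ent q / L) + δ * T * (Q / L) := by
    have h1 : ∀ w, (τ w : ℝ) * -Real.log (q w) ≤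
        T / L * Real.negMulLog (q w) + |(L : ℝ) * τ w - q w * T| * (Q / L) := by
      intro w
      have h2 : q w ≤ 1 := by
        rw [← hq1]; exact Finset.single_le_sum (fun w _ => hq w) (Finset.mem_univ w)
      have h3 : 0 ≤ -Real.log (q w) := by
        have := Real.log_nonpos (hq w) h2
        linarith
      have h4 : (L : ℝ) * τ w ≤ q w * T + |(L : ℝ) * τ w - q w * T| := by
        linarith [le_abs_self ((L : ℝ) * τ w - q w * T)]
      have h5 : (τ w : ℝ) ≤ (q w * T + |(L : ℝ) * τ w - q w * T|) / L := by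
        rw [le_div_iff₀ hLr]; linarith
      calc (τ w : ℝ) * -Real.log (q w)
          ≤ (q w * T + |(L : ℝ) * τ w - q w * T|) / L * -Real.log (q w) :=
            mul_le_mul_of_nonneg_right h5 h3
        _ = T / L * Real.negMulLog (q w) + |(L : ℝ) * τ w - q w * T| / L * -Real.log (q w) := by
            unfold Real.negMulLog; ring
        _ ≤ T / L * Real.negMulLog (q w) + |(L : ℝ) * τ w - q w * T| / L * Q := by
            have : |(L : ℝ) * τ w - q w * T| / L * -Real.log (q w) ≤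
              |(L : ℝ) * τ w - q w * T| / L * Q :=
              mul_le_mul_of_nonneg_left (hQ w) (by positivity)
            linarith
        _ = _ := by ring
    calc ∑ w, (τ w : ℝ) * -Real.log (q w) ≤ ∑ w, (T / L * Real.negMulLog (q w) +
          |(L : ℝ) * τ w - q w * T| * (Q / L)) := Finset.sum_le_sum fun w _ => h1 w
      _ = T * (ent q / L) + (∑ w, |(L : ℝ) * τ w - q w * T|) * (Q / L) := by
          rw [Finset.sum_add_distrib, ← Finset.mul_sum, ← Finset.sum_mul]
          unfold ent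
          ring
      _ ≤ T * (ent q / L) + δ * T * (Q / L) := by
          have : (∑ w, |(L : ℝ) * τ w - q w * T|) * (Q / L) ≤ δ * T * (Q / L) :=
            mul_le_mul_of_nonneg_right hd1 (by positivity)
          linarith
  have hTC2 : TC ≤ Real.exp (T * (ent q / L) + δ * T * (Q / L)) :=
    hTC.trans (Real.exp_le_exp.2 hsum)
  -- the lower bound for C
  set U := (Finset.range T) \ A.biUnion (fun a => Finset.Ico a (a + L)) with hU
  have hUcard : (U.card : ℝ) ≤ δ * T := by
    have h1 : (U.card : ℝ) + L * A.card = T := by exact_mod_cast card_uncovered hA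
    have h2 : (A.card : ℝ) = ∑ w, (τ w : ℝ) := by
      rw [← Nat.cast_sum, hτsum, Fintype.card_coe]
    have h3 : (U.card : ℝ) = ∑ w, (q w * T - L * τ w) := by
      rw [Finset.sum_sub_distrib, ← Finset.sum_mul, ← Finset.mul_sum, hq1, ← h2]
      linarith
    rw [h3]
    refine le_trans (Finset.sum_le_sum fun w _ => ?_) hd1
    rw [abs_sub_comm]
    exact le_abs_self _
  have hWC : Wτ.card ≤ C.card * n ^ U.card := by
    have h1 : (Wτ.image (fun ξ => (wd ξ, fun t : U => ξ t))).card = Wτ.card := by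
      apply Finset.card_image_of_injOn
      intro ξ hξ ζ hζ h
      simp only [Prod.mk.injEq] at h
      refine hW1 ξ (Finset.mem_filter.1 hξ).1 ζ (Finset.mem_filter.1 hζ).1 ?_
      intro t ht
      by_cases htU : t ∈ U
      · exact congrFun h.2 ⟨t, htU⟩
      · rw [hU, Finset.mem_sdiff, not_and, not_not] at htU
        obtain ⟨a, ha, hta⟩ := Finset.mem_biUnion.1 (htU (Finset.mem_range.2 ht))
        rw [Finset.mem_Ico] at hta
        have := congrFun (congrFun h.1 ⟨a, ha⟩) ⟨t - a, by omega⟩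
        simp only [hwd, word, id] at this
        have e : a + (t - a) = t := by omega
        rwa [e] at this
    rw [← h1]
    have h2 : (Wτ.image (fun ξ => (wd ξ, fun t : U => ξ t))) ⊆
        C ×ˢ (Finset.univ : Finset (U → Fin n)) := by
      intro x hx
      obtain ⟨ξ, hξ, rfl⟩ := Finset.mem_image.1 hx
      exact Finset.mem_product.2 ⟨Finset.mem_image_of_mem _ hξ, Finset.mem_univ _⟩
    refine (Finset.card_le_card h2).trans (le_of_eq ?_)
    rw [Finset.card_product, Finset.card_univ, Fintype.card_fun, Fintype.card_coe, Fintype.card_fin]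
  have hWr : (0 : ℝ) < W.card := by exact_mod_cast hW4
  have hnU : (n : ℝ) ^ U.card ≤ Real.exp (δ * T * Real.log n) := by
    have h1 : (n : ℝ) ^ U.card = Real.exp (U.card * Real.log n) := by
      rw [mul_comm, Real.exp_mul, Real.exp_log (by linarith), Real.rpow_natCast]
    rw [h1]
    exact Real.exp_le_exp.2 (mul_le_mul_of_nonneg_right hUcard (Real.log_nonneg hnr))
  have hCinv : 1 / (C.card : ℝ) ≤
      (T + 1 : ℝ) ^ (n ^ L) * Real.exp (δ * T * Real.log n) / W.card := by
    rw [div_le_div_iff₀ hCcard hWr, one_mul]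
    have h1 : (W.card : ℝ) ≤ (T + 1 : ℝ) ^ (n ^ L) * Wτ.card := by exact_mod_cast hy
    have h2 : (Wτ.card : ℝ) ≤ C.card * (n : ℝ) ^ U.card := by exact_mod_cast hWC
    calc (W.card : ℝ) ≤ (T + 1 : ℝ) ^ (n ^ L) * Wτ.card := h1
      _ ≤ (T + 1 : ℝ) ^ (n ^ L) * (C.card * (n : ℝ) ^ U.card) := by gcongr
      _ ≤ (T + 1 : ℝ) ^ (n ^ L) * (C.card * Real.exp (δ * T * Real.log n)) := by gcongr
      _ = _ := by ring
  have hTC0 : 0 ≤ TC := by positivity
  push_cast
  rw [mul_one]
  refine mul_le_mul_of_nonneg_left ?_ (by positivity)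
  calc TC / C.card = TC * (1 / C.card) := by ring
    _ ≤ _ := mul_le_mul hTC2 hCinv (by positivity) (Real.exp_pos _).le

theorem sparse_bound {n T k : ℕ} {t : ℝ} (ht : 0 < t) (ht1 : t ≤ 1) :
    ((Finset.univ.filter (fun e : Fin T → Option (Fin n) =>
        (Finset.univ.filter (fun i => e i ≠ none)).card ≤ k)).card : ℝ) ≤
      Real.exp (T * (t * n) + k * (-Real.log t)) := by
  have h1 := Pool.Agent.Helper10.Weiss.card_sparse_le (ι := Fin T) (β := Fin n) k ht ht1
  rw [Fintype.card_fin, Fintype.card_fin] at h1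
  have h2 : (1 + t * n : ℝ) ^ T ≤ Real.exp (T * (t * n)) := by
    have h3 : 1 + t * n ≤ Real.exp (t * n) := by linarith [Real.add_one_le_exp (t * n)]
    calc (1 + t * n : ℝ) ^ T ≤ Real.exp (t * n) ^ T := pow_le_pow_left₀ (by positivity) h3 T
      _ = Real.exp (T * (t * n)) := by rw [← Real.exp_nat_mul]
  have h3 : t ^ k = Real.exp (-(k * (-Real.log t))) := by
    have : -(k * (-Real.log t)) = k * Real.log t := by ring
    rw [this, Real.exp_nat_mul, Real.exp_log ht]
  have h4 := h1.trans h2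
  rw [h3, Real.exp_neg, ← div_eq_mul_inv, div_le_iff₀ (Real.exp_pos _), ← Real.exp_add] at h4
  exact h4

theorem uc (n L : ℕ) (hL : 0 < L) (q : (Fin L → Fin n) → ℝ) (hq : ∀ w, 0 ≤ q w)
    (hq1 : ∑ w, q w = 1) (η : ℝ) (hη : 0 < η) :
    ∃ δ > 0, ∀ b : ℝ, ∃ T₀ : ℕ, ∀ T ≥ T₀, ∀ S : Set (Fin n × Fin n), (∀ i, (i, i) ∉ S) →
      ∀ A : Finset ℕ, Packing L T A → ∀ W : Finset (ℕ → Fin n),
        (∀ ξ ∈ W, ∀ ζ ∈ W, (∀ t < T, ξ t = ζ t) → ξ = ζ) →
        (∀ ξ ∈ W, Near id L q A ξ T (δ * T)) →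
        (∀ ξ ∈ W, ∀ a ∈ A, 0 < q (word id L ξ a)) →
        Real.exp (T * (ent q / L - η / 2)) ≤ W.card →
        Leq (Typ id L q δ b T) (pw S T) (W : Set (ℕ → Fin n)) (pw S T) (Real.exp (η * T)) := by
  have hn : 1 ≤ n := by
    by_contra h0
    have : n = 0 := by omega
    subst this
    haveI : IsEmpty (Fin L → Fin 0) := ⟨fun f => (f ⟨0, hL⟩).elim0⟩
    rw [Finset.univ_eq_empty, Finset.sum_empty] at hq1
    exact zero_ne_one hq1
  have hLr : (0 : ℝ) < L := by exact_mod_cast hL
  have hnr : (1 : ℝ) ≤ n := by exact_mod_cast hn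
  set Q : ℝ := ∑ w, |Real.log (q w)| with hQdef
  have hQ : ∀ w, -Real.log (q w) ≤ Q := by
    intro w
    refine (neg_le_abs _).trans ?_
    exact Finset.single_le_sum (f := fun w => |Real.log (q w)|) (fun w _ => abs_nonneg _)
      (Finset.mem_univ w)
  have hQ0 : 0 ≤ Q := Finset.sum_nonneg fun w _ => abs_nonneg _
  set t : ℝ := min 1 (η / (16 * n)) with ht
  have ht0 : 0 < t := lt_min one_pos (by positivity)
  have ht1 : t ≤ 1 := min_le_left _ _
  have htn : t * n ≤ η / 16 := by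
    have h1 : t ≤ η / (16 * n) := min_le_right _ _
    calc t * n ≤ η / (16 * n) * n := mul_le_mul_of_nonneg_right h1 (by linarith)
      _ = η / 16 := by field_simp
  have hlt : 0 ≤ -Real.log t := by
    have := Real.log_nonpos ht0.le ht1
    linarith
  set K : ℝ := 2 * (-Real.log t) + Q / L + Real.log n with hK
  have hlogn : 0 ≤ Real.log n := Real.log_nonneg hnr
  have hK0 : 0 ≤ K := by positivity
  refine ⟨η / (8 * (K + 1)), by positivity, fun b => ?_⟩
  set δ := η / (8 * (K + 1)) with hδ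
  have hδ0 : 0 < δ := by positivity
  have hδK : δ * K ≤ η / 8 := by
    have : δ * (K + 1) = η / 8 := by rw [hδ]; field_simp
    nlinarith
  set M : ℕ := n ^ L with hM
  set ε : ℝ := η / (16 * (M + 1)) with hε
  have hε0 : 0 < ε := by positivity
  have hMε : 2 * M * ε ≤ η / 8 := by
    have h1 : ε * (M + 1) = η / 16 := by rw [hε]; field_simp
    nlinarith
  set D : ℝ := |2 * M * (ε - 1 - Real.log ε)| + (|b| + 1) * (-Real.log t) with hD
  have hD0 : 0 ≤ D := by positivity
  refine ⟨⌈8 * D / η⌉₊, fun T hT S hS A hA W hW1 hW2 hW3 hW4 => ?_⟩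
  have hTD : D ≤ η / 8 * T := by
    have h1 : 8 * D / η ≤ T := Nat.ceil_le.1 hT
    rw [div_le_iff₀ hη] at h1
    linarith
  have hT0 : (0 : ℝ) ≤ T := Nat.cast_nonneg T
  have hWr : (0 : ℝ) < W.card := lt_of_lt_of_le (Real.exp_pos _) hW4
  have hWpos : 0 < W.card := by exact_mod_cast hWr
  set k : ℕ := ⌈2 * δ * T + |b|⌉₊ with hk
  have hk1 : 2 * δ * T + |b| ≤ k := Nat.le_ceil _
  have hk2 : (k : ℝ) ≤ 2 * δ * T + |b| + 1 := (Nat.ceil_lt_add_one (by positivity)).le
  have hkb : δ * T + (δ * T + b) ≤ k := by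
    have := le_abs_self b
    linarith
  refine Leq.mono (uc_comb n L T hL q hq hq1 hn Q δ b hQ k hkb S hS A hA W hW1 hW2 hW3 hWpos) ?_
  -- the numerical estimate
  have hT1 : (0 : ℝ) < T + 1 := by linarith
  have e1 : ((T : ℝ) + 1) ^ (n ^ L) = Real.exp (M * Real.log (T + 1)) := by
    rw [Real.exp_nat_mul, Real.exp_log hT1]
  have hlog : 2 * M * Real.log (T + 1) ≤ η / 8 * T + 2 * M * (ε - 1 - Real.log ε) := by
    have h1 : Real.log (ε * (T + 1)) ≤ ε * (T + 1) - 1 := Real.log_le_sub_one_of_pos (by positivity)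
    rw [Real.log_mul hε0.ne' hT1.ne'] at h1
    have h2 : Real.log (T + 1) ≤ ε * (T + 1) - 1 - Real.log ε := by linarith
    have h3 : 2 * (M : ℝ) * Real.log (T + 1) ≤ 2 * M * (ε * (T + 1) - 1 - Real.log ε) :=
      mul_le_mul_of_nonneg_left h2 (by positivity)
    have h4 : 2 * M * ε * T ≤ η / 8 * T := mul_le_mul_of_nonneg_right hMε hT0
    linarith
  have hWinv : 1 / (W.card : ℝ) ≤ Real.exp (-(T * (ent q / L - η / 2))) := by
    rw [Real.exp_neg, one_div]
    exact inv_anti₀ (Real.exp_pos _) hW4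
  have hsp := sparse_bound (n := n) (T := T) (k := k) ht0 ht1
  rw [e1]
  have e2 : ∀ x y z w : ℝ, x / y = x * (1 / y) := fun x y _ _ => by ring
  have hfin : Real.exp (M * Real.log (T + 1)) *
        ((Finset.univ.filter (fun e : Fin T → Option (Fin n) =>
          (Finset.univ.filter (fun i => e i ≠ none)).card ≤ k)).card : ℝ) *
        (Real.exp (T * (ent q / L) + δ * T * (Q / L)) *
          (Real.exp (M * Real.log (T + 1)) * Real.exp (δ * T * Real.log n) / W.card)) ≤
      Real.exp (M * Real.log (T + 1)) * Real.exp (T * (t * n) + k * (-Real.log t)) *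
        (Real.exp (T * (ent q / L) + δ * T * (Q / L)) *
          (Real.exp (M * Real.log (T + 1)) * Real.exp (δ * T * Real.log n) *
            Real.exp (-(T * (ent q / L - η / 2))))) := by
    rw [e2 _ (W.card : ℝ) 0 0]
    gcongr
  refine hfin.trans ?_
  rw [← Real.exp_add, ← Real.exp_add, ← Real.exp_add, ← Real.exp_add, ← Real.exp_add]
  apply Real.exp_le_exp.2
  have h5 : (k : ℝ) * (-Real.log t) ≤ (2 * δ * T + |b| + 1) * (-Real.log t) :=
    mul_le_mul_of_nonneg_right hk2 hlt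
  have h6 : (T : ℝ) * (t * n) ≤ T * (η / 16) := mul_le_mul_of_nonneg_left htn hT0
  have h7 : δ * K * T ≤ η / 8 * T := mul_le_mul_of_nonneg_right hδK hT0
  have h8 : 2 * M * (ε - 1 - Real.log ε) ≤ |2 * M * (ε - 1 - Real.log ε)| := le_abs_self _
  have h9 : δ * K * T = 2 * δ * T * (-Real.log t) + δ * T * (Q / L) + δ * T * Real.log n := by
    rw [hK]; ring
  have h10 : 0 ≤ η * T := by positivity
  have h11 : (2 * δ * T + |b| + 1) * (-Real.log t) =
    2 * δ * T * (-Real.log t) + (|b| + 1) * (-Real.log t) := by ring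
  have h12 : -(T * (ent q / L - η / 2)) = -(T * (ent q / L)) + η * T / 2 := by ring
  rw [h12]
  linarith

end Pool.Agent.Helper51.Weiss
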